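import Pool.Agent.Helper66.PD.Stmts

/-! # PD row LST: on level `w + 1` every element of a bag spans the node -/

set_option autoImplicit false

namespace Pool.Agent.Helper66.PD

theorem st_LST : ST_LST := by
  classical
  intro P _ w m l r A E C hcard hH z p hp hl hr
  set K : ℕ → Finset P := fun k => Finset.univ.filter (fun x => l x ≤ A k p ∧ E k p ≤ r x) with hK
  have hsub : ∀ k, K k ⊆ Finset.univ.filter (fun x => l x ≤ p ∧ p ≤ r x) := by
    intro k x hx
    simp only [hK, Finset.mem_filter, Finset.mem_univ, true_and] at hx ⊢
    obtain ⟨h1, h2, -⟩ := hH.mem k p hp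
    exact ⟨hx.1.trans h1, h2.trans hx.2⟩
  have hmono : ∀ k x, (l x ≤ A k p ∧ E k p ≤ r x) → l x ≤ A (k + 1) p ∧ E (k + 1) p ≤ r x := by
    intro k x hx
    obtain ⟨h1, h2⟩ := hH.nest k p hp
    exact ⟨hx.1.trans h1, h2.trans hx.2⟩
  have key : ∀ k, (∀ x, l x ≤ p → p ≤ r x → l x ≤ A k p ∧ E k p ≤ r x) ∨ k ≤ (K k).card := by
    intro k
    induction k with
    | zero => exact Or.inr (Nat.zero_le _)
    | succ k ih =>
      rcases ih with ih | ih
      · exact Or.inl fun x h1 h2 => hmono k x (ih x h1 h2)
      · rcases hH.grow k p hp with h | ⟨y, hy1, hy2⟩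
        · exact Or.inl fun x h1 h2 => hmono k x (h x h1 h2)
        · right
          have hlt : (K k).card < (K (k + 1)).card := by
            apply Finset.card_lt_card
            rw [Finset.ssubset_iff_of_subset]
            · refine ⟨y, ?_, ?_⟩
              · simp only [hK, Finset.mem_filter, Finset.mem_univ, true_and]
                exact hy2
              · simp only [hK, Finset.mem_filter, Finset.mem_univ, true_and]
                exact hy1
            · intro x hx
              simp only [hK, Finset.mem_filter, Finset.mem_univ, true_and] at hx ⊢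
              exact hmono k x hx
          omega
  rcases key (w + 1) with h | h
  · exact h z hl hr
  · have heq : K (w + 1) = Finset.univ.filter (fun x => l x ≤ p ∧ p ≤ r x) :=
      Finset.eq_of_subset_of_card_le (hsub _) ((hcard p).trans h)
    have hz : z ∈ K (w + 1) := by
      rw [heq]
      simp only [Finset.mem_filter, Finset.mem_univ, true_and]
      exact ⟨hl, hr⟩
    simpa only [hK, Finset.mem_filter, Finset.mem_univ, true_and] using hz

end Pool.Agent.Helper66.PD
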